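import Pool.Agent.W512.ML.Krull

/-!
ML-REGB: a lower bound for the dimension of the local ring of the quotient.
-/

set_option autoImplicit false
set_option linter.unusedSectionVars false
set_option synthInstance.maxHeartbeats 400000

open MvPolynomial

namespace Pool.Agent.W45.ML

open Pool.Agent.Helper819.Dyn Pool.Agent.W512.ML

noncomputable section

variable {k : Type} [Field k] {N d : ℕ}

/-! ### the dimension of the big local ring -/

/-- evaluation of the first `i` variables -/
def psi (f : Ix N d → k) (e : Ix N d → ℕ) (i : ℕ) : SS k N d →ₐ[k] SS k N d :=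
  aeval (fun p => if e p < i then C (f p) else X p)

theorem psi_X (f : Ix N d → k) (e : Ix N d → ℕ) (i : ℕ) (p : Ix N d) :
    psi f e i (X p) = if e p < i then C (f p) else X p := by
  unfold psi
  rw [aeval_X]

theorem psi_C (f : Ix N d → k) (e : Ix N d → ℕ) (i : ℕ) (r : k) :
    psi f e i (C r) = C r := by
  exact (psi f e i).commutes r

theorem psi_psi (f : Ix N d → k) (e : Ix N d → ℕ) {i j : ℕ} (hij : i ≤ j) (P : SS k N d) :
    psi f e j (psi f e i P) = psi f e j P := by
  have h : (psi f e j).comp (psi f e i) = psi f e j := by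
    apply MvPolynomial.algHom_ext
    intro p
    rw [AlgHom.comp_apply, psi_X, psi_X]
    split_ifs with h1 h2 h2
    · exact psi_C f e j _
    · omega
    · rw [psi_X, if_pos h2]
    · rw [psi_X, if_neg h2]
  exact DFunLike.congr_fun h P

/-- the chain of primes -/
def pr (f : Ix N d → k) (e : Ix N d → ℕ) (i : ℕ) : PrimeSpectrum (SS k N d) :=
  ⟨RingHom.ker (psi f e i), RingHom.ker_isPrime _⟩

theorem pr_lt (f : Ix N d → k) (e : Ix N d → ℕ) (i : ℕ) (p : Ix N d) (hp : e p = i) :
    pr f e i < pr f e (i + 1) := by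
  change RingHom.ker (psi f e i) < RingHom.ker (psi f e (i + 1))
  refine lt_of_le_of_ne ?_ ?_
  · intro P hP
    rw [RingHom.mem_ker] at hP ⊢
    rw [← psi_psi f e (Nat.le_succ i), hP, map_zero]
  · intro h
    have h1 : (X p - C (f p) : SS k N d) ∈ RingHom.ker (psi f e (i + 1)) := by
      rw [RingHom.mem_ker, map_sub, psi_X, psi_C, if_pos (by omega), sub_self]
    rw [← h, RingHom.mem_ker, map_sub, psi_X, psi_C, if_neg (by omega)] at h1
    have h2 := congrArg (eval (fun q => f q + 1)) h1
    rw [map_sub, eval_X, eval_C, map_zero] at h2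
    simp at h2

theorem height_pt (f : Ix N d → k) : ((Fintype.card (Ix N d) : ℕ) : ℕ∞) ≤ (pt f).height := by
  classical
  have e := Fintype.equivFin (Ix N d)
  let g : Ix N d → ℕ := fun p => (e p : ℕ)
  have hx : ((⟨pt f, inferInstance⟩ : PrimeSpectrum (SS k N d))).asIdeal.height =
      Order.height (⟨pt f, inferInstance⟩ : PrimeSpectrum (SS k N d)) :=
    PrimeSpectrum.height_eq_orderHeight _
  change (pt f).height = _ at hx
  rw [hx]
  let L : LTSeries (PrimeSpectrum (SS k N d)) :=
    { length := Fintype.card (Ix N d)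
      toFun := fun i => pr f g i
      step := by
        intro i
        change pr f g (i.castSucc : ℕ) < pr f g (i.succ : ℕ)
        rw [Fin.val_castSucc, Fin.val_succ]
        apply pr_lt f g i (e.symm i)
        change ((e (e.symm i) : Fin _) : ℕ) = i
        rw [e.apply_symm_apply] }
  have hlast : L.last ≤ (⟨pt f, inferInstance⟩ : PrimeSpectrum (SS k N d)) := by
    change RingHom.ker (psi f g _) ≤ pt f
    intro P hP
    rw [RingHom.mem_ker] at hP
    change eval f P = 0
    have h1 : (eval f).comp (psi f g ((Fin.last (Fintype.card (Ix N d)) : Fin _) : ℕ)).toRingHom =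
        eval f := by
      apply MvPolynomial.ringHom_ext
      · intro r
        change eval f (psi f g _ (C r)) = eval f (C r)
        rw [psi_C]
      · intro p
        change eval f (psi f g _ (X p)) = eval f (X p)
        rw [psi_X]
        split_ifs
        · rw [eval_C, eval_X]
        · rfl
    have h2 := DFunLike.congr_fun h1 P
    change eval f (psi f g _ P) = eval f P at h2
    rw [← h2]
    have h3 : psi f g ((Fin.last (Fintype.card (Ix N d)) : Fin _) : ℕ) P = 0 := hP
    rw [h3, map_zero]
  exact Order.length_le_height hlast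

theorem toR_inj (f : Ix N d → k) : Function.Injective (toR f) := by
  intro a b hab
  have h1 := congrArg (Subtype.val) hab
  exact jj_inj h1

theorem dim_R (f : Ix N d → k) :
    ((Fintype.card (Ix N d) : ℕ) : ℕ∞) ≤ (IsLocalRing.maximalIdeal (Rloc f)).height := by
  let _ : Algebra (SS k N d) (Rloc f) := (toR f).toAlgebra
  have hloc : IsLocalization.AtPrime (Rloc f) (pt f) := by
    change IsLocalization (pt f).primeCompl (Rloc f)
    rw [isLocalization_iff]
    refine ⟨?_, ?_, ?_⟩
    · rintro ⟨y, hy⟩
      change IsUnit (toR f y)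
      rw [isUnit_iff_valf, valf_toR]
      exact hy
    · rintro ⟨a, P, Q, hQ, rfl⟩
      refine ⟨(P, ⟨Q, hQ⟩), ?_⟩
      apply Subtype.ext
      change jj k N d P / jj k N d Q * jj k N d Q = jj k N d P
      rw [div_mul_cancel₀ _ (jj_ne hQ)]
    · intro x y hxy
      exact ⟨1, by rw [toR_inj f hxy]⟩
  have h1 := IsLocalization.AtPrime.ringKrullDim_eq_height (pt f) (Rloc f)
  rw [← IsLocalRing.maximalIdeal_height_eq_ringKrullDim] at h1
  have h2 : (IsLocalRing.maximalIdeal (Rloc f)).height = (pt f).height := by exact_mod_cast h1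
  rw [h2]
  exact height_pt f

/-! ### the cotangent space -/

/-- the local parameters -/
def xx (f : Ix N d → k) (p : Ix N d) : Rloc f := toR f (X p - C (f p))

/-- linear combinations of the local parameters -/
def LL (f : Ix N d → k) : (Ix N d → k) →ₗ[k] Rloc f where
  toFun v := ∑ p, v p • xx f p
  map_add' v w := by
    rw [← Finset.sum_add_distrib]
    exact Finset.sum_congr rfl fun p _ => by rw [Pi.add_apply, add_smul]
  map_smul' r v := by
    rw [RingHom.id_apply, Finset.smul_sum]
    exact Finset.sum_congr rfl fun p _ => by rw [Pi.smul_apply, smul_eq_mul, mul_smul]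

theorem LL_apply (f : Ix N d → k) (v : Ix N d → k) : LL f v = ∑ p, v p • xx f p := rfl

theorem xx_mem (f : Ix N d → k) (p : Ix N d) : xx f p ∈ IsLocalRing.maximalIdeal (Rloc f) := by
  rw [mem_maxR]
  unfold xx
  rw [valf_toR, map_sub, eval_X, eval_C, sub_self]

theorem LL_mem (f : Ix N d → k) (v : Ix N d → k) : LL f v ∈ IsLocalRing.maximalIdeal (Rloc f) := by
  rw [LL_apply]
  refine Submodule.sum_mem _ fun p _ => ?_
  rw [Algebra.smul_def]
  exact Ideal.mul_mem_left _ _ (xx_mem f p)

/-- gradient at the point -/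
def gd (f : Ix N d → k) (a : Rloc f) : Ix N d → k := fun p => valf f (grd f a p)

theorem gd_add (f : Ix N d → k) (a b : Rloc f) : gd f (a + b) = gd f a + gd f b := by
  funext p
  unfold gd
  rw [grd_add, Pi.add_apply, map_add]
  rfl

theorem gd_mul (f : Ix N d → k) (a b : Rloc f) :
    gd f (a * b) = valf f a • gd f b + valf f b • gd f a := by
  funext p
  unfold gd
  rw [grd_mul, Pi.add_apply, map_add, Pi.smul_apply, Pi.smul_apply, smul_eq_mul, smul_eq_mul,
    map_mul, map_mul]
  rfl

theorem gd_algebraMap (f : Ix N d → k) (r : k) : gd f (algebraMap k (Rloc f) r) = 0 := by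
  funext p
  unfold gd
  rw [grd_algebraMap, Pi.zero_apply, map_zero]
  rfl

/-- first order Taylor expansion -/
def Tay (f : Ix N d → k) (a : Rloc f) : Prop :=
  a - algebraMap k (Rloc f) (valf f a) - LL f (gd f a) ∈ IsLocalRing.maximalIdeal (Rloc f) ^ 2

theorem valf_alg (f : Ix N d → k) (r : k) : valf f (algebraMap k (Rloc f) r) = r :=
  (valf f).commutes r

theorem Tay.add {f : Ix N d → k} {a b : Rloc f} (ha : Tay f a) (hb : Tay f b) : Tay f (a + b) := by
  unfold Tay at *
  rw [gd_add, map_add, map_add, map_add]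
  have := Submodule.add_mem _ ha hb
  convert this using 1
  ring

theorem Tay.alg (f : Ix N d → k) (r : k) : Tay f (algebraMap k (Rloc f) r) := by
  unfold Tay
  rw [gd_algebraMap, valf_alg, map_zero, sub_self, sub_zero]
  exact Submodule.zero_mem _

theorem sub_mem_max (f : Ix N d → k) (a : Rloc f) :
    a - algebraMap k (Rloc f) (valf f a) ∈ IsLocalRing.maximalIdeal (Rloc f) := by
  rw [mem_maxR, map_sub, valf_alg, sub_self]

theorem Tay.mul {f : Ix N d → k} {a b : Rloc f} (ha : Tay f a) (hb : Tay f b) : Tay f (a * b) := by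
  unfold Tay at *
  rw [gd_mul, map_add, map_smul, map_smul, map_mul, Algebra.smul_def, Algebra.smul_def, map_mul]
  have h1 := Ideal.mul_mem_mul (sub_mem_max f a) (sub_mem_max f b)
  rw [← pow_two] at h1
  have h2 := Ideal.mul_mem_left _ (algebraMap k (Rloc f) (valf f a)) hb
  have h3 := Ideal.mul_mem_left _ (algebraMap k (Rloc f) (valf f b)) ha
  have h4 := Submodule.add_mem _ (Submodule.add_mem _ h1 h2) h3
  convert h4 using 1
  ring

theorem grd_toR_X (f : Ix N d → k) (p : Ix N d) : gd f (toR f (X p)) = Pi.single p 1 := by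
  classical
  funext q
  unfold gd
  have h1 : grd f (toR f (X p)) q = algebraMap k (Rloc f) (if p = q then 1 else 0) := by
    apply Subtype.ext
    change pdK q (gx k N d p) = ((algebraMap k (Rloc f) (if p = q then 1 else 0) : Rloc f) : KK k N d)
    rw [pdK_gx]
    split_ifs
    · rw [map_one]; rfl
    · rw [map_zero]; rfl
  rw [h1, valf_alg, Pi.single_apply]
  by_cases h : p = q
  · rw [if_pos h, if_pos h.symm]
  · rw [if_neg h, if_neg (fun h' => h h'.symm)]

theorem toR_C (f : Ix N d → k) (r : k) : toR f (C r) = algebraMap k (Rloc f) r := by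
  apply Subtype.ext
  exact (jj k N d).commutes r

theorem Tay.X (f : Ix N d → k) (p : Ix N d) : Tay f (toR f (X p)) := by
  classical
  unfold Tay
  rw [grd_toR_X, valf_toR, eval_X, LL_apply, Finset.sum_eq_single p]
  · rw [Pi.single_eq_same, one_smul]
    unfold xx
    rw [map_sub, toR_C, sub_self]
    exact Submodule.zero_mem _
  · intro q _ hq
    rw [Pi.single_eq_of_ne hq, zero_smul]
  · intro h
    exact absurd (Finset.mem_univ p) h

theorem Tay.poly (f : Ix N d → k) (P : SS k N d) : Tay f (toR f P) := by
  induction P using MvPolynomial.induction_on with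
  | C r => rw [toR_C]; exact Tay.alg f r
  | add p q hp hq => rw [map_add]; exact hp.add hq
  | mul_X p i hp => rw [map_mul]; exact hp.mul (Tay.X f i)

theorem Tay.all (f : Ix N d → k) (a : Rloc f) : Tay f a := by
  obtain ⟨P, Q, hQ, ha⟩ := a.2
  have haQ : a * toR f Q = toR f P := by
    apply Subtype.ext
    change (a : KK k N d) * jj k N d Q = jj k N d P
    rw [ha, div_mul_cancel₀ _ (jj_ne hQ)]
  have hP := Tay.poly f P
  have hQ' := Tay.poly f Q
  unfold Tay at hP hQ' ⊢
  rw [← haQ, gd_mul, map_add, map_smul, map_smul, map_mul, Algebra.smul_def, Algebra.smul_def,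
    map_mul] at hP
  have h1 := Ideal.mul_mem_mul (sub_mem_max f a) (sub_mem_max f (toR f Q))
  rw [← pow_two] at h1
  have h2 := Ideal.mul_mem_left _ (algebraMap k (Rloc f) (valf f a)) hQ'
  have h3 := Submodule.sub_mem _ (Submodule.sub_mem _ hP h1) h2
  have h4 := Ideal.mul_mem_left _ (algebraMap k (Rloc f) (valf f (toR f Q))⁻¹) h3
  have hne : valf f (toR f Q) ≠ 0 := by rw [valf_toR]; exact hQ
  have hinv : algebraMap k (Rloc f) (valf f (toR f Q))⁻¹ *
      algebraMap k (Rloc f) (valf f (toR f Q)) = 1 := by
    rw [← map_mul, inv_mul_cancel₀ hne, map_one]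
  convert h4 using 1
  linear_combination (-(a - algebraMap k (Rloc f) (valf f a) - LL f (gd f a))) * hinv

/-- generators of the maximal ideal of the big local ring -/
theorem gens_R {f : Ix N d → k} {ν : ℕ} (y : Fin ν → Rloc f) (hy : ∀ i, valf f (y i) = 0)
    {W : Submodule k (Ix N d → k)}
    (hW : Submodule.span k (Set.range fun i => gd f (y i)) ⊔ W = ⊤) {n : ℕ} (b : Fin n → W)
    (hb : Submodule.span k (Set.range b) = ⊤) :
    IsLocalRing.maximalIdeal (Rloc f) ≤
      Ideal.span (Set.range y ∪ Set.range fun j => LL f (b j : Ix N d → k)) := by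
  set J := Ideal.span (Set.range y ∪ Set.range fun j => LL f (b j : Ix N d → k)) with hJ
  set m := IsLocalRing.maximalIdeal (Rloc f) with hm
  have hyJ : ∀ i, y i ∈ J := fun i => Ideal.subset_span (Or.inl ⟨i, rfl⟩)
  have hbJ : ∀ j, LL f (b j : Ix N d → k) ∈ J := fun j => Ideal.subset_span (Or.inr ⟨j, rfl⟩)
  have h1 : ∀ w ∈ Submodule.span k (Set.range fun i => gd f (y i)), LL f w ∈ J ⊔ m • m := by
    intro w hw
    induction hw using Submodule.span_induction with
    | mem x hx =>
      obtain ⟨i, rfl⟩ := hx
      have ht := Tay.all f (y i)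
      unfold Tay at ht
      rw [hy i, map_zero, sub_zero, pow_two] at ht
      have h2 : LL f (gd f (y i)) = y i + -(y i - LL f (gd f (y i))) := by ring
      change LL f (gd f (y i)) ∈ _
      rw [h2]
      refine Submodule.add_mem _ (Submodule.mem_sup_left (hyJ i)) (Submodule.mem_sup_right ?_)
      exact Submodule.neg_mem _ ht
    | zero => rw [map_zero]; exact Submodule.zero_mem _
    | add x z _ _ h3 h4 => rw [map_add]; exact Submodule.add_mem _ h3 h4
    | smul r x _ h3 =>
      have h4 : r • LL f x = algebraMap k (Rloc f) r * LL f x := Algebra.smul_def _ _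
      rw [map_smul, h4]
      exact Ideal.mul_mem_left _ _ h3
  have h2 : ∀ w : W, LL f (w : Ix N d → k) ∈ J := by
    intro w
    have hw : w ∈ Submodule.span k (Set.range b) := by rw [hb]; trivial
    induction hw using Submodule.span_induction with
    | mem x hx =>
      obtain ⟨j, rfl⟩ := hx
      exact hbJ j
    | zero => rw [Submodule.coe_zero, map_zero]; exact Submodule.zero_mem _
    | add x z _ _ h3 h4 =>
      rw [Submodule.coe_add, map_add]; exact Submodule.add_mem _ h3 h4
    | smul r x _ h3 =>
      rw [Submodule.coe_smul, map_smul, Algebra.smul_def]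
      exact Ideal.mul_mem_left _ _ h3
  apply Submodule.le_of_le_smul_of_le_jacobson_bot (I := m) (IsNoetherian.noetherian m)
    (IsLocalRing.maximalIdeal_le_jacobson ⊥)
  intro a ha
  have ha' := ha
  rw [hm, mem_maxR] at ha'
  have ht := Tay.all f a
  unfold Tay at ht
  rw [ha', map_zero, sub_zero, pow_two] at ht
  have hg : gd f a ∈ Submodule.span k (Set.range fun i => gd f (y i)) ⊔ W := by
    rw [hW]; trivial
  obtain ⟨w, hw, w', hw', hww⟩ := Submodule.mem_sup.1 hg
  have h3 : a = (LL f w + LL f w') + (a - LL f (gd f a)) := by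
    rw [← map_add, hww]; ring
  rw [h3]
  refine Submodule.add_mem _ (Submodule.add_mem _ (h1 w hw) (Submodule.mem_sup_left (h2 ⟨w', hw'⟩)))
    (Submodule.mem_sup_right ht)

end

open Classical in
/-- **ML-REGB** -/
theorem dim_ge {k : Type} [Field k] [IsAlgClosed k] [CharZero k] {N d : ℕ} {f : Ix N d → k}
    [IsNoetherianRing (Oloc f)] {ν : ℕ} (y : Fin ν → Oloc f)
    (hgen : IsLocalRing.maximalIdeal (Oloc f) = Ideal.span (Set.range y))
    (hind : LinearIndependent k (fun i => fun p => val0 f (pdK p (y i : KK k N d)))) :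
    (ν : WithBot ℕ∞) ≤ ringKrullDim (Oloc f) := by
  obtain ⟨Z, hZ, hZc⟩ := Ideal.exists_finset_card_eq_height_of_isNoetherianRing
    (IsLocalRing.maximalIdeal (Oloc f))
  have hind' : LinearIndependent k (fun i => gd f (incl f (y i))) := hind
  obtain ⟨W, hW⟩ := Submodule.exists_isCompl
    (Submodule.span k (Set.range fun i => gd f (incl f (y i))))
  have hrank := Submodule.finrank_add_eq_of_isCompl hW
  rw [finrank_span_eq_card hind', Fintype.card_fin, Module.finrank_fintype_fun_eq_card] at hrank
  set n := Module.finrank k W with hn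
  let b := Module.finBasis k W
  have hval : ∀ i, valf f (incl f (y i)) = 0 := by
    intro i
    have h1 : y i ∈ IsLocalRing.maximalIdeal (Oloc f) := by
      rw [hgen]
      exact Ideal.subset_span ⟨i, rfl⟩
    rw [mem_maxO] at h1
    exact h1
  have hmax := gens_R (fun i => incl f (y i)) hval hW.sup_eq_top (fun j => b j) b.span_eq
  set S : Finset (Rloc f) := Z.image (incl f) ∪
    Finset.univ.image (fun j => LL f (b j : Ix N d → k)) with hS
  have hcard : S.card ≤ Z.card + n := by
    refine (Finset.card_union_le _ _).trans ?_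
    refine Nat.add_le_add Finset.card_image_le ?_
    refine Finset.card_image_le.trans ?_
    rw [Finset.card_univ, Fintype.card_fin]
  have hmin : IsLocalRing.maximalIdeal (Rloc f) ∈ (Ideal.span (S : Set (Rloc f))).minimalPrimes := by
    refine ⟨⟨inferInstance, ?_⟩, ?_⟩
    · rw [Ideal.span_le]
      intro a ha
      rw [hS, Finset.coe_union, Finset.coe_image, Finset.coe_image] at ha
      rcases ha with ⟨z, hz, rfl⟩ | ⟨j, _, rfl⟩
      · have h1 : z ∈ IsLocalRing.maximalIdeal (Oloc f) := hZ.1.2 (Ideal.subset_span hz)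
        rw [mem_maxO] at h1
        change incl f z ∈ IsLocalRing.maximalIdeal (Rloc f)
        rw [mem_maxR]
        exact h1
      · exact LL_mem f _
    · rintro q ⟨hq, hSq⟩ _
      have hq' : (q.comap (incl f).toRingHom).IsPrime := Ideal.comap_isPrime _ _
      have h1 : Ideal.span (Z : Set (Oloc f)) ≤ q.comap (incl f).toRingHom := by
        rw [Ideal.span_le]
        intro z hz
        change incl f z ∈ q
        apply hSq
        apply Ideal.subset_span
        rw [hS, Finset.coe_union, Finset.coe_image]
        exact Or.inl ⟨z, hz, rfl⟩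
      have h2 := hZ.2 ⟨hq', h1⟩ (IsLocalRing.le_maximalIdeal hq'.ne_top)
      refine hmax.trans ?_
      rw [Ideal.span_le]
      rintro a (⟨i, rfl⟩ | ⟨j, rfl⟩)
      · have h3 : y i ∈ IsLocalRing.maximalIdeal (Oloc f) := by
          rw [hgen]
          exact Ideal.subset_span ⟨i, rfl⟩
        exact h2 h3
      · apply hSq
        apply Ideal.subset_span
        rw [hS, Finset.coe_union, Finset.coe_image, Finset.coe_image]
        exact Or.inr ⟨j, by simp, rfl⟩
  have h1 := Ideal.height_le_card_of_mem_minimalPrimes_span_finset hmin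
  have h2 := (dim_R f).trans h1
  have h3 : Fintype.card (Ix N d) ≤ S.card := by exact_mod_cast h2
  have h4 : ν ≤ Z.card := by omega
  rw [← IsLocalRing.maximalIdeal_height_eq_ringKrullDim, ← hZc]
  exact_mod_cast h4

end Pool.Agent.W45.ML
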