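import Pool.Agent.W512.ML.KK

/-!
ML-ISO: the local ring of `M_d^N` is the ring of invariant rational functions regular at `f`.
-/

set_option autoImplicit false
set_option linter.unusedSectionVars false

open MvPolynomial Topology

namespace Pool.Agent.W45.ML

open Pool.Agent.Helper819.Dyn Pool.Agent.Helper819.Zar Pool.Agent.W512.ML

noncomputable section

variable {k : Type} [Field k] {N d : ℕ}

/-- precomposition of a polynomial with the action of `A` -/
def compA (A : Matrix (Fin (N + 1)) (Fin (N + 1)) k) (P : SS k N d) : SS k N d :=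
  bind₁ (fun p => ∑ q, C (actT A (fun j => if q = j then 1 else 0) p) * X q) P

theorem eval_compA (A : Matrix (Fin (N + 1)) (Fin (N + 1)) k) (P : SS k N d) (c : Ix N d → k) :
    eval c (compA A P) = eval (actT A c) P := by
  unfold compA
  rw [eval_bind]
  congr 1
  congr 1
  funext p
  rw [map_sum]
  have h := LinearMap.pi_apply_eq_sum_univ (actL (d := d) A) c
  have h2 := congrFun h p
  change actT A c p = _ at h2
  rw [h2, Finset.sum_apply]
  refine Finset.sum_congr rfl fun q _ => ?_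
  rw [map_mul, eval_C, eval_X, Pi.smul_apply, smul_eq_mul, mul_comm]
  rfl

theorem compA_homog (A : Matrix (Fin (N + 1)) (Fin (N + 1)) k) {P : SS k N d} {m : ℕ}
    (hP : P.IsHomogeneous m) : (compA A P).IsHomogeneous m := by
  unfold compA
  have := hP.aeval (fun p : Ix N d =>
    (∑ q, C (actT A (fun j => if q = j then 1 else 0) p) * X q : SS k N d)) (n := 1) (by
    intro p
    refine IsHomogeneous.sum _ _ _ fun q _ => ?_
    exact isHomogeneous_C_mul_X _ _)
  rw [one_mul] at this
  exact this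

/-- the inclusion of the index sets -/
def rho (p : Ix N d) : Fin (N + 1) × (Fin (N + 1) →₀ ℕ) := (p.1, p.2.1)

theorem eval_rename_rho (G : EndTuple k N d) (P : SS k N d) :
    eval (coords G) (rename rho P) = eval (cf G.1) P := by
  rw [eval_rename]
  rfl

open Classical in
/-- a polynomial in all the coefficients as a polynomial in the coefficients of degree `d` -/
def bk (P : MvPolynomial (Fin (N + 1) × (Fin (N + 1) →₀ ℕ)) k) : SS k N d :=
  bind₁ (fun p => if h : p.2 ∈ Finset.finsuppAntidiag Finset.univ d then X (p.1, ⟨p.2, h⟩) else 0) P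

theorem eval_bk (G : EndTuple k N d) (P : MvPolynomial (Fin (N + 1) × (Fin (N + 1) →₀ ℕ)) k) :
    eval (cf G.1) (bk (d := d) P) = eval (coords G) P := by
  have h0 : (fun p : Fin (N + 1) × (Fin (N + 1) →₀ ℕ) => eval (cf (d := d) G.1)
      (if h : p.2 ∈ Finset.finsuppAntidiag Finset.univ d then X (p.1, ⟨p.2, h⟩) else 0 :
        SS k N d)) = coords G := by
    funext p
    split_ifs with h
    · rw [eval_X]
      rfl
    · rw [map_zero]
      symm
      apply (G.2.1 p.1).coeff_eq_zero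
      intro hm
      apply h
      exact (mem_Ex p.2).mpr hm
  unfold bk
  rw [eval_bind, h0]

section
variable [IsAlgClosed k]

/-- the tuple with given coefficients -/
def mkE (c : Ix N d → k) (h : NZ (tup c)) : EndTuple k N d :=
  ⟨tup c, (isEnd_iff _).2 ⟨tup_homog c, h⟩⟩

theorem cf_mkE (c : Ix N d → k) (h : NZ (tup c)) : cf (mkE c h).1 = c := cf_tup c

theorem cf_actE (A : Matrix (Fin (N + 1)) (Fin (N + 1)) k) (hA : A.det ≠ 0)
    (G : EndTuple k N d) : cf (actE A hA G).1 = actT A (cf (d := d) G.1) := by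
  unfold actT
  rw [tup_cf G.2.1]
  rfl

theorem NZ_cf (G : EndTuple k N d) : NZ (tup (cf (d := d) G.1)) := by
  rw [tup_cf G.2.1]
  exact ((isEnd_iff _).1 G.2).2

/-- points near `cls F` -/
theorem near (hNd : 0 < N + d) (F : EndTuple k N d) (Q : SS k N d) (hQ : eval (cf F.1) Q ≠ 0) :
    ∀ᶠ m in 𝓝 (cls F), ∃ G : EndTuple k N d, cls G = m ∧ eval (cf G.1) Q ≠ 0 := by
  have h1 : IsOpen {G : EndTuple k N d | eval (coords G) (rename rho Q) ≠ 0} :=
    (isZar_coords k N d).isOpen_ne _
  have h2 := isOpenMap_cls hNd _ h1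
  refine Filter.mem_of_superset (h2.mem_nhds ⟨F, ?_, rfl⟩) ?_
  · change eval (coords F) (rename rho Q) ≠ 0
    rwa [eval_rename_rho]
  · rintro m ⟨G, hG, rfl⟩
    refine ⟨G, rfl, ?_⟩
    have : eval (coords G) (rename rho Q) ≠ 0 := hG
    rwa [eval_rename_rho] at this

/-- a statement near `cls F` holds for generic coefficient vectors -/
theorem generic (F : EndTuple k N d) {p : Moduli k N d → Prop} (hp : ∀ᶠ m in 𝓝 (cls F), p m) :
    ∃ S : SS k N d, eval (cf F.1) S ≠ 0 ∧
      ∀ c : Ix N d → k, eval c S ≠ 0 → ∃ h : NZ (tup c), p (cls (mkE c h)) := by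
  have h1 : ∀ᶠ G in 𝓝 F, p (cls G) := continuous_cls.continuousAt.eventually hp
  obtain ⟨_, ⟨q, rfl⟩, hFq, hq⟩ := (isZar_coords k N d).isTopologicalBasis.mem_nhds_iff.1 h1
  obtain ⟨P, hP, hP2⟩ := exists_open (NZ_cf F)
  refine ⟨bk q * P, ?_, ?_⟩
  · rw [map_mul, eval_bk]
    exact mul_ne_zero hFq hP
  · intro c hc
    rw [map_mul] at hc
    have hnz := hP2 c (right_ne_zero_of_mul hc)
    refine ⟨hnz, hq ?_⟩
    change eval (coords (mkE c hnz)) q ≠ 0
    rw [← eval_bk, cf_mkE]
    exact left_ne_zero_of_mul hc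

variable [CharZero k]

theorem eval_smul_hom {m : ℕ} {P : SS k N d} (hP : P.IsHomogeneous m) (r : k) (c : Ix N d → k) :
    eval (r • c) P = r ^ m * eval c P := by
  rw [eval_eq', eval_eq', Finset.mul_sum]
  refine Finset.sum_congr rfl fun e he => ?_
  have hdeg : ∑ i, e i = m := by
    have := hP (mem_support_iff.mp he)
    rw [← this]
    simp [Finsupp.weight_apply, Finsupp.sum_fintype]
  simp only [Pi.smul_apply, smul_eq_mul, mul_pow]
  rw [Finset.prod_mul_distrib, Finset.prod_pow_eq_pow_sum, hdeg]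
  ring

theorem invPair_smul (hNd : 0 < N + d) {P Q : SS k N d} (h : InvPair P Q) {r : k} (hr : r ≠ 0)
    (c : Ix N d → k) : eval (r • c) P * eval c Q = eval c P * eval (r • c) Q := by
  obtain ⟨a, ha⟩ := IsAlgClosed.exists_pow_nat_eq r hNd
  have ha0 : a ≠ 0 := by
    rintro rfl
    rw [zero_pow hNd.ne'] at ha
    exact hr ha.symm
  have h1 := h (a • (1 : Matrix (Fin (N + 1)) (Fin (N + 1)) k)) (by
    rw [Matrix.det_smul, Matrix.det_one, mul_one]
    exact pow_ne_zero _ ha0) c
  rw [actT_scalar, ha] at h1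
  exact h1

theorem comp_mul (hNd : 0 < N + d) {P Q : SS k N d} (h : InvPair P Q) (j : ℕ) :
    homogeneousComponent j P * Q = P * homogeneousComponent j Q := by
  apply MvPolynomial.funext
  intro c
  rw [map_mul, map_mul]
  set n := max (P.totalDegree + 1) (Q.totalDegree + 1) with hn
  have hP : P = ∑ i ∈ Finset.range n, homogeneousComponent i P := by
    conv_lhs => rw [← sum_homogeneousComponent P]
    apply Finset.sum_subset
    · apply Finset.range_subset_range.2
      exact le_max_left _ _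
    · intro i _ hi
      apply homogeneousComponent_eq_zero
      simp only [Finset.mem_range, not_lt] at hi
      omega
  have hQ : Q = ∑ i ∈ Finset.range n, homogeneousComponent i Q := by
    conv_lhs => rw [← sum_homogeneousComponent Q]
    apply Finset.sum_subset
    · apply Finset.range_subset_range.2
      exact le_max_right _ _
    · intro i _ hi
      apply homogeneousComponent_eq_zero
      simp only [Finset.mem_range, not_lt] at hi
      omega
  -- the polynomial in the scaling variable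
  let W : Polynomial k := ∑ i ∈ Finset.range n,
    Polynomial.monomial i (eval c (homogeneousComponent i P) * eval c Q -
      eval c P * eval c (homogeneousComponent i Q))
  have hW : W = 0 := by
    apply Polynomial.eq_zero_of_infinite_isRoot
    have hinf : Infinite k := IsAlgClosed.instInfinite
    refine Set.Infinite.mono (s := {r : k | r ≠ 0}) ?_ ?_
    · intro r hr
      change W.eval r = 0
      have h1 := invPair_smul hNd h hr c
      have e1 : eval (r • c) P = ∑ i ∈ Finset.range n, r ^ i * eval c (homogeneousComponent i P) := by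
        conv_lhs => rw [hP]
        rw [map_sum]
        exact Finset.sum_congr rfl fun i _ =>
          eval_smul_hom (homogeneousComponent_isHomogeneous i P) r c
      have e2 : eval (r • c) Q = ∑ i ∈ Finset.range n, r ^ i * eval c (homogeneousComponent i Q) := by
        conv_lhs => rw [hQ]
        rw [map_sum]
        exact Finset.sum_congr rfl fun i _ =>
          eval_smul_hom (homogeneousComponent_isHomogeneous i Q) r c
      rw [e1, e2, Finset.sum_mul, Finset.mul_sum] at h1
      simp only [W, Polynomial.eval_finsetSum, Polynomial.eval_monomial]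
      rw [← sub_eq_zero, ← Finset.sum_sub_distrib] at h1
      rw [← h1]
      exact Finset.sum_congr rfl fun i _ => by ring
    · exact (Set.finite_singleton (0 : k)).infinite_compl
  have h2 := congrArg (fun w => Polynomial.coeff w j) hW
  simp only [W, Polynomial.finsetSum_coeff, Polynomial.coeff_monomial, Polynomial.coeff_zero] at h2
  rw [Finset.sum_ite_eq'] at h2
  split_ifs at h2 with hj
  · exact sub_eq_zero.1 h2
  · have hj' : n ≤ j := by simpa using hj
    rw [homogeneousComponent_eq_zero j P (by omega), homogeneousComponent_eq_zero j Q (by omega)]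
    simp

/-- cancellation -/
theorem cancel {Q R : SS k N d} (hQ : Q ≠ 0) (h : ∀ c, eval c Q * eval c R = 0) : R = 0 := by
  have h1 : Q * R = 0 := by
    apply MvPolynomial.funext
    intro c
    rw [map_mul, map_zero, h c]
  exact (mul_eq_zero.1 h1).resolve_left hQ

theorem compA_ne_zero (A : Matrix (Fin (N + 1)) (Fin (N + 1)) k) (hA : A.det ≠ 0)
    {Q : SS k N d} (hQ : Q ≠ 0) : compA A Q ≠ 0 := by
  intro h
  apply hQ
  apply MvPolynomial.funext
  intro c
  have h1 : eval (actT A⁻¹ c) (compA A Q) = 0 := by rw [h, map_zero]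
  rw [eval_compA, actT_actT, Matrix.nonsing_inv_mul _ (isUnit_iff_ne_zero.mpr hA), actT_one] at h1
  rw [h1, map_zero]

/-- homogeneous representation -/
theorem exists_hom (hNd : 0 < N + d) {f : Ix N d → k} {a : KK k N d} (ha : a ∈ Oloc f) :
    ∃ (m : ℕ) (P Q : SS k N d), P.IsHomogeneous m ∧ Q.IsHomogeneous m ∧ eval f Q ≠ 0 ∧
      a = jj k N d P / jj k N d Q ∧ InvPair P Q := by
  obtain ⟨P, Q, hQ, ha, hPQ⟩ := mem_Oloc.1 ha
  have hQ0 : Q ≠ 0 := by
    rintro rfl
    exact hQ (map_zero _)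
  obtain ⟨j, hj⟩ : ∃ j, eval f (homogeneousComponent j Q) ≠ 0 := by
    by_contra hcon
    push Not at hcon
    apply hQ
    rw [← sum_homogeneousComponent Q, map_sum]
    exact Finset.sum_eq_zero fun i _ => hcon i
  have hc := comp_mul hNd hPQ j
  refine ⟨j, homogeneousComponent j P, homogeneousComponent j Q,
    homogeneousComponent_isHomogeneous j P, homogeneousComponent_isHomogeneous j Q, hj, ?_, ?_⟩
  · rw [ha, div_eq_div_iff (jj_ne hQ) (jj_ne hj), ← map_mul, ← map_mul, hc]
  · intro A hA c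
    have hc1 := congrArg (eval c) hc
    rw [map_mul, map_mul] at hc1
    have key : compA A (homogeneousComponent j P) * homogeneousComponent j Q -
        homogeneousComponent j P * compA A (homogeneousComponent j Q) = 0 := by
      apply cancel (mul_ne_zero hQ0 (compA_ne_zero A hA hQ0))
      intro c
      have h1 := congrArg (eval c) hc
      have h2 := congrArg (eval (actT A c)) hc
      have h3 := hPQ A hA c
      rw [map_mul, map_mul] at h1 h2
      rw [map_mul, map_sub, map_mul, map_mul, eval_compA, eval_compA, eval_compA]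
      linear_combination (eval c (homogeneousComponent j Q) * eval c Q) * h2 -
        (eval (actT A c) (homogeneousComponent j Q) * eval (actT A c) Q) * h1 +
        (eval c (homogeneousComponent j Q) * eval (actT A c) (homogeneousComponent j Q)) * h3
    have h4 := congrArg (eval c) key
    rw [map_sub, map_mul, map_mul, eval_compA, eval_compA, map_zero, sub_eq_zero] at h4
    exact h4

/-- the chosen numerator and denominator -/
theorem exists_pair (hNd : 0 < N + d) (f : Ix N d → k) (a : Oloc f) :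
    ∃ PQ : SS k N d × SS k N d, (∃ m, PQ.1.IsHomogeneous m ∧ PQ.2.IsHomogeneous m) ∧
      eval f PQ.2 ≠ 0 ∧ (a : KK k N d) = jj k N d PQ.1 / jj k N d PQ.2 ∧ InvPair PQ.1 PQ.2 := by
  obtain ⟨m, P, Q, h1, h2, h3, h4, h5⟩ := exists_hom hNd a.2
  exact ⟨(P, Q), ⟨m, h1, h2⟩, h3, h4, h5⟩

/-- the chosen pair -/
def pq (hNd : 0 < N + d) (f : Ix N d → k) (a : Oloc f) : SS k N d × SS k N d :=
  (exists_pair hNd f a).choose

theorem pq_spec (hNd : 0 < N + d) (f : Ix N d → k) (a : Oloc f) :
    (∃ m, (pq hNd f a).1.IsHomogeneous m ∧ (pq hNd f a).2.IsHomogeneous m) ∧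
      eval f (pq hNd f a).2 ≠ 0 ∧
      (a : KK k N d) = jj k N d (pq hNd f a).1 / jj k N d (pq hNd f a).2 ∧
      InvPair (pq hNd f a).1 (pq hNd f a).2 :=
  (exists_pair hNd f a).choose_spec

open Classical in
/-- the function on the moduli space -/
def hf (hNd : 0 < N + d) (f : Ix N d → k) (a : Oloc f) (m : Moduli k N d) : k :=
  if h : ∃ G : EndTuple k N d, cls G = m ∧ eval (cf G.1) (pq hNd f a).2 ≠ 0 then
    eval (cf h.choose.1) (pq hNd f a).1 / eval (cf h.choose.1) (pq hNd f a).2
  else 0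

theorem hf_eq (hNd : 0 < N + d) (f : Ix N d → k) (a : Oloc f) (G : EndTuple k N d)
    (hG : eval (cf G.1) (pq hNd f a).2 ≠ 0) :
    hf hNd f a (cls G) = eval (cf G.1) (pq hNd f a).1 / eval (cf G.1) (pq hNd f a).2 := by
  have h : ∃ G' : EndTuple k N d, cls G' = cls G ∧ eval (cf G'.1) (pq hNd f a).2 ≠ 0 :=
    ⟨G, rfl, hG⟩
  unfold hf
  rw [dif_pos h]
  obtain ⟨h1, h2⟩ := h.choose_spec
  obtain ⟨A, hA, hAG⟩ := (cls_eq_iff hNd G h.choose).1 h1.symm
  rw [hAG, cf_actE] at h2
  rw [hAG, cf_actE, div_eq_div_iff h2 hG]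
  exact (pq_spec hNd f a).2.2.2 A hA _

theorem hf_val (hNd : 0 < N + d) (f : Ix N d → k) (a : Oloc f) (G : EndTuple k N d)
    (hG : eval (cf G.1) (pq hNd f a).2 ≠ 0) :
    ∃ h : (a : KK k N d) ∈ Rloc (cf (d := d) G.1),
      hf hNd f a (cls G) = valf (cf G.1) ⟨(a : KK k N d), h⟩ := by
  refine ⟨mem_Rloc.2 ⟨_, _, hG, (pq_spec hNd f a).2.2.1⟩, ?_⟩
  rw [hf_eq hNd f a G hG, valf_eq _ hG (pq_spec hNd f a).2.2.1]

/-- the germ of an invariant rational function -/
def tg (hNd : 0 < N + d) (F : EndTuple k N d) (a : Oloc (cf (d := d) F.1)) :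
    (𝓝 (cls F)).Germ k := (hf hNd (cf F.1) a : Moduli k N d → k)

theorem tg_mem (hNd : 0 < N + d) (F : EndTuple k N d) (a : Oloc (cf (d := d) F.1)) :
    tg hNd F a ∈ localRing (cls F) := by
  obtain ⟨⟨m, hm1, hm2⟩, h2, h3, h4⟩ := pq_spec hNd (cf F.1) a
  refine ⟨cls '' {G : EndTuple k N d | eval (coords G) (rename rho (pq hNd (cf F.1) a).2) ≠ 0},
    hf hNd (cf F.1) a, ?_, ?_, ?_, rfl⟩
  · exact isOpenMap_cls hNd _ ((isZar_coords k N d).isOpen_ne _)
  · refine ⟨F, ?_, rfl⟩
    change eval (coords F) (rename rho (pq hNd (cf F.1) a).2) ≠ 0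
    rwa [eval_rename_rho]
  · rintro G ⟨G', hG', hGG'⟩
    have hG'2 : eval (coords G') (rename rho (pq hNd (cf F.1) a).2) ≠ 0 := hG'
    rw [eval_rename_rho] at hG'2
    obtain ⟨A, hA, hAG⟩ := (cls_eq_iff hNd G G').1 hGG'.symm
    rw [hAG, cf_actE] at hG'2
    refine ⟨m, rename rho (compA A (pq hNd (cf F.1) a).1), rename rho (compA A (pq hNd (cf F.1) a).2),
      (compA_homog A hm1).rename_isHomogeneous, (compA_homog A hm2).rename_isHomogeneous, ?_, ?_⟩
    · rw [eval_rename_rho, eval_compA]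
      exact hG'2
    · intro H _ hH
      rw [eval_rename_rho, eval_compA] at hH
      rw [eval_rename_rho, eval_compA, eval_rename_rho, eval_compA]
      have e : cls H = cls (actE A hA H) := (cls_eq_iff hNd H _).2 ⟨A, hA, rfl⟩
      rw [e, hf_eq hNd (cf F.1) a (actE A hA H) (by rw [cf_actE]; exact hH), cf_actE]

/-- three elements have generic values -/
theorem near3 (hNd : 0 < N + d) (F : EndTuple k N d) (a b c : Oloc (cf (d := d) F.1)) :
    ∀ᶠ m in 𝓝 (cls F), ∃ G : EndTuple k N d, cls G = m ∧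
      eval (cf G.1) (pq hNd (cf F.1) a).2 ≠ 0 ∧ eval (cf G.1) (pq hNd (cf F.1) b).2 ≠ 0 ∧
      eval (cf G.1) (pq hNd (cf F.1) c).2 ≠ 0 := by
  have := near hNd F ((pq hNd (cf F.1) a).2 * (pq hNd (cf F.1) b).2 * (pq hNd (cf F.1) c).2) (by
    rw [map_mul, map_mul]
    exact mul_ne_zero (mul_ne_zero (pq_spec hNd _ a).2.1 (pq_spec hNd _ b).2.1)
      (pq_spec hNd _ c).2.1)
  filter_upwards [this] with m hm
  obtain ⟨G, h1, h2⟩ := hm
  rw [map_mul, map_mul] at h2
  exact ⟨G, h1, left_ne_zero_of_mul (left_ne_zero_of_mul h2),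
    right_ne_zero_of_mul (left_ne_zero_of_mul h2), right_ne_zero_of_mul h2⟩

/-- the ring homomorphism -/
def tgHom (hNd : 0 < N + d) (F : EndTuple k N d) : Oloc (cf (d := d) F.1) →+* localRing (cls F) where
  toFun a := ⟨tg hNd F a, tg_mem hNd F a⟩
  map_one' := by
    apply Subtype.ext
    change ((hf hNd (cf F.1) 1 : Moduli k N d → k) : (𝓝 (cls F)).Germ k) =
      ((fun _ => 1 : Moduli k N d → k) : (𝓝 (cls F)).Germ k)
    apply Filter.Germ.coe_eq.2
    filter_upwards [near3 hNd F 1 1 1] with m hm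
    obtain ⟨G, rfl, h1, _, _⟩ := hm
    obtain ⟨h2, h3⟩ := hf_val hNd _ _ G h1
    rw [h3]
    exact map_one (valf (cf G.1))
  map_zero' := by
    apply Subtype.ext
    change ((hf hNd (cf F.1) 0 : Moduli k N d → k) : (𝓝 (cls F)).Germ k) =
      ((fun _ => 0 : Moduli k N d → k) : (𝓝 (cls F)).Germ k)
    apply Filter.Germ.coe_eq.2
    filter_upwards [near3 hNd F 0 0 0] with m hm
    obtain ⟨G, rfl, h1, _, _⟩ := hm
    obtain ⟨h2, h3⟩ := hf_val hNd _ _ G h1
    rw [h3]
    exact map_zero (valf (cf G.1))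
  map_add' a b := by
    apply Subtype.ext
    change ((hf hNd (cf F.1) (a + b) : Moduli k N d → k) : (𝓝 (cls F)).Germ k) =
      ((fun m => hf hNd (cf F.1) a m + hf hNd (cf F.1) b m : Moduli k N d → k) :
        (𝓝 (cls F)).Germ k)
    apply Filter.Germ.coe_eq.2
    filter_upwards [near3 hNd F a b (a + b)] with m hm
    obtain ⟨G, rfl, h1, h2, h3⟩ := hm
    obtain ⟨i1, e1⟩ := hf_val hNd _ _ G h1
    obtain ⟨i2, e2⟩ := hf_val hNd _ _ G h2
    obtain ⟨i3, e3⟩ := hf_val hNd _ _ G h3
    rw [e1, e2, e3, ← map_add]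
    rfl
  map_mul' a b := by
    apply Subtype.ext
    change ((hf hNd (cf F.1) (a * b) : Moduli k N d → k) : (𝓝 (cls F)).Germ k) =
      ((fun m => hf hNd (cf F.1) a m * hf hNd (cf F.1) b m : Moduli k N d → k) :
        (𝓝 (cls F)).Germ k)
    apply Filter.Germ.coe_eq.2
    filter_upwards [near3 hNd F a b (a * b)] with m hm
    obtain ⟨G, rfl, h1, h2, h3⟩ := hm
    obtain ⟨i1, e1⟩ := hf_val hNd _ _ G h1
    obtain ⟨i2, e2⟩ := hf_val hNd _ _ G h2
    obtain ⟨i3, e3⟩ := hf_val hNd _ _ G h3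
    rw [e1, e2, e3, ← map_mul]
    rfl

theorem tgHom_inj (hNd : 0 < N + d) (F : EndTuple k N d) : Function.Injective (tgHom hNd F) := by
  rw [injective_iff_map_eq_zero]
  intro a ha
  have h1 : ((hf hNd (cf F.1) a : Moduli k N d → k) : (𝓝 (cls F)).Germ k) =
      ((fun _ => 0 : Moduli k N d → k) : (𝓝 (cls F)).Germ k) := congrArg Subtype.val ha
  have h2 := Filter.Germ.coe_eq.1 h1
  obtain ⟨S, hS, hS2⟩ := generic F h2
  obtain ⟨_, s2, s3, _⟩ := pq_spec hNd (cf F.1) a
  have hS0 : S ≠ 0 := by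
    rintro rfl
    exact hS (map_zero _)
  have hQ0 : (pq hNd (cf F.1) a).2 ≠ 0 := by
    intro h
    rw [h, map_zero] at s2
    exact s2 rfl
  have h3 : (pq hNd (cf F.1) a).1 = 0 := by
    apply cancel (mul_ne_zero hS0 hQ0)
    intro c
    rw [map_mul]
    by_cases hc : eval c S = 0
    · rw [hc]
      ring
    by_cases hc2 : eval c (pq hNd (cf F.1) a).2 = 0
    · rw [hc2]
      ring
    obtain ⟨hz, he⟩ := hS2 c hc
    rw [hf_eq hNd _ a (mkE c hz) (by rw [cf_mkE]; exact hc2), cf_mkE] at he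
    rw [(div_eq_zero_iff.1 he).resolve_right hc2]
    ring
  apply Subtype.ext
  rw [s3, h3, map_zero, zero_div]
  rfl

theorem tgHom_surj (hNd : 0 < N + d) (F : EndTuple k N d) : Function.Surjective (tgHom hNd F) := by
  rintro ⟨g, U, h, hU, hFU, hreg, rfl⟩
  obtain ⟨m, P, Q, hP, hQ, hQF, hh⟩ := hreg F hFU
  obtain ⟨S, hS, hS2⟩ := generic F (p := fun m => m ∈ U) (hU.mem_nhds hFU)
  have hS0 : S ≠ 0 := by
    rintro rfl
    exact hS (map_zero _)
  have hQF' : eval (cf F.1) (bk (d := d) Q) ≠ 0 := by rw [eval_bk]; exact hQF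
  have hQ0 : bk (d := d) Q ≠ 0 := by
    intro h0
    rw [h0, map_zero] at hQF'
    exact hQF' rfl
  have hval : ∀ G : EndTuple k N d, cls G ∈ U → eval (cf G.1) (bk (d := d) Q) ≠ 0 →
      h (cls G) = eval (cf G.1) (bk (d := d) P) / eval (cf G.1) (bk (d := d) Q) := by
    intro G hG hne
    rw [eval_bk] at hne
    rw [eval_bk, eval_bk]
    exact hh G hG hne
  have hinv : InvPair (bk (d := d) P) (bk (d := d) Q) := by
    intro A hA c
    have key : compA A (bk (d := d) P) * bk Q - bk P * compA A (bk Q) = 0 := by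
      apply cancel (mul_ne_zero (mul_ne_zero hS0 hQ0) (compA_ne_zero A hA hQ0))
      intro c
      rw [map_mul, map_mul, map_sub, map_mul, map_mul, eval_compA, eval_compA]
      by_cases hc1 : eval c S = 0
      · rw [hc1]; ring
      by_cases hc2 : eval c (bk (d := d) Q) = 0
      · rw [hc2]; ring
      by_cases hc3 : eval (actT A c) (bk (d := d) Q) = 0
      · rw [hc3]; ring
      obtain ⟨hz, hcU⟩ := hS2 c hc1
      have e : cls (mkE c hz) = cls (actE A hA (mkE c hz)) := (cls_eq_iff hNd _ _).2 ⟨A, hA, rfl⟩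
      have v1 := hval (mkE c hz) hcU (by rw [cf_mkE]; exact hc2)
      have v2 := hval (actE A hA (mkE c hz)) (by rw [← e]; exact hcU)
        (by rw [cf_actE, cf_mkE]; exact hc3)
      rw [← e, v1, cf_actE, cf_mkE, div_eq_div_iff hc2 hc3] at v2
      rw [← v2]
      ring
    have h4 := congrArg (eval c) key
    rw [map_sub, map_mul, map_mul, eval_compA, eval_compA, map_zero, sub_eq_zero] at h4
    exact h4
  have hmem : jj k N d (bk P) / jj k N d (bk Q) ∈ Oloc (cf (d := d) F.1) :=
    mem_Oloc.2 ⟨bk P, bk Q, hQF', rfl, hinv⟩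
  refine ⟨⟨_, hmem⟩, ?_⟩
  apply Subtype.ext
  change ((hf hNd (cf F.1) ⟨_, hmem⟩ : Moduli k N d → k) : (𝓝 (cls F)).Germ k) =
    (h : (𝓝 (cls F)).Germ k)
  apply Filter.Germ.coe_eq.2
  have h5 := near hNd F ((pq hNd (cf F.1) ⟨_, hmem⟩).2 * bk (d := d) Q) (by
    rw [map_mul]
    exact mul_ne_zero (pq_spec hNd _ _).2.1 hQF')
  filter_upwards [h5, hU.mem_nhds hFU] with m hm hmU
  obtain ⟨G, rfl, h6⟩ := hm
  rw [map_mul] at h6
  rw [hf_eq hNd _ _ G (left_ne_zero_of_mul h6), hval G hmU (right_ne_zero_of_mul h6)]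
  exact val_wd (left_ne_zero_of_mul h6) (right_ne_zero_of_mul h6)
    (pq_spec hNd (cf F.1) ⟨_, hmem⟩).2.2.1.symm

end

end

/-- **ML-ISO** -/
theorem iso {k : Type} [Field k] [IsAlgClosed k] [CharZero k] {N d : ℕ} (_hN : 1 ≤ N) (hd : 2 ≤ d)
    (F : EndTuple k N d) : Nonempty (localRing (cls F) ≃+* Oloc (cf (d := d) F.1)) := by
  have hNd : 0 < N + d := by omega
  exact ⟨(RingEquiv.ofBijective (tgHom hNd F) ⟨tgHom_inj hNd F, tgHom_surj hNd F⟩).symm⟩

end Pool.Agent.W45.ML
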